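import Pool.Agent.Lib.MP_bb8a0f_gt.Main

namespace Pool.Agent.Results.MP_bb8a0f_gt.ThreeBraids

open LaurentPolynomial Pool.Agent.Lib.MP_bb8a0f_gt

/-- Fox's trapezoidal conjecture for closures of alternating three-braids, with a bound on the
length of the plateau. -/
theorem result (w : List Bool) (h₁ : true ∈ w) (h₂ : false ∈ w) :
    ∃ (n : ℕ) (a : ℕ → ℤ) (k : ℕ),
      alexIdeal w = Ideal.span {∑ i ∈ Finset.range (n + 1), C (a i) * (- T 1) ^ i} ∧
      0 < a 0 ∧ 0 < a n ∧ Trapezoidal n a k ∧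
      (n : ℤ) - 2 * k ≤ |(w.count true : ℤ) - w.count false| :=
  fox_three w h₁ h₂

end Pool.Agent.Results.MP_bb8a0f_gt.ThreeBraids
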