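import Pool.Agent.Lib.MP_bb8a0f_gt.Fin

namespace Pool.Agent.Results.MP_bb8a0f_gt.WheelDiagrams

open LaurentPolynomial Pool.Agent.Lib.MP_bb8a0f_gt

/-- Fox's trapezoidal conjecture for the closure of every oriented alternating tangle diagram
built from crossings by quarter turns, vertical composition, and three-strand words of tangles
closed up along one strand. -/
theorem result (A : Dg 2) (h : A.Ok) (h₀ : (A.ends true 0).Match (A.ends false 0))
    (h₁ : (A.ends true 1).Match (A.ends false 1)) :
    ∃ (n : ℕ) (a : ℕ → ℤ) (k : ℕ),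
      A.alexIdeal = Ideal.span {∑ i ∈ Finset.range (n + 1), C (a i) * (- T 1) ^ i} ∧
      0 < a 0 ∧ 0 < a n ∧ Trapezoidal n a k :=
  fox_wheel A h h₀ h₁

end Pool.Agent.Results.MP_bb8a0f_gt.WheelDiagrams
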